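import Pool.Agent.Helper26_BSN.Defs2

/-! # BSN, module CHU: chains exist -/

set_option autoImplicit false

namespace Pool.Agent.BSN.H38

open Pool.Agent.BSig

theorem twr_succ_le (j p k : ℕ) : twr j p k ≤ twr j p (k + 1) := by
  have h1 : twr j p (k + 1) = 2 ^ twr j p k + GG j (twr j p k) := rfl
  have h2 : twr j p k < 2 ^ twr j p k := Nat.lt_two_pow_self
  omega

theorem twr_mono (j p : ℕ) : Monotone (twr j p) := monotone_nat_of_le_succ (twr_succ_le j p)

open Classical in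
/-- the least witness plus one, or zero -/
noncomputable def wit (j e v : ℕ) : ℕ :=
  if TT (j + 1) e v then sInf {u | ¬ TT j e (npr u v)} + 1 else 0

theorem wit_le (hG : GGBasics) (j x e v : ℕ) (he : e ≤ x) (hv : v ≤ x) : wit j e v ≤ GG j x + 1 := by
  unfold wit
  split_ifs with h
  · obtain ⟨u, hu, hu'⟩ := hG.1 j x e v he hv h
    have h1 : sInf {u | ¬ TT j e (npr u v)} ≤ u := Nat.sInf_le hu'
    omega
  · omega

theorem chu (hG : GGBasics) (hN : NatStmt) : ChainUp := by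
  intro j k p
  obtain ⟨-, -, -, -, hinj, hmono, hle, -, -, -, -⟩ := hN
  obtain ⟨t, ht⟩ : ∃ t, t = twr j p k := ⟨_, rfl⟩
  obtain ⟨b1, hb1⟩ : ∃ b1, b1 = ncode (npr k t + 1) (fun n => ∃ i, i ≤ k ∧ n = npr i (twr j p i)) :=
    ⟨_, rfl⟩
  obtain ⟨b2, hb2⟩ : ∃ b2, b2 = ncode (fc t t (t + 1) + 1) (fun n => ∃ e v, n = fc e v (wit j e v) ∧
    ∃ i, i < k ∧ e ≤ twr j p i ∧ v ≤ twr j p i) := ⟨_, rfl⟩
  have hm1 : ∀ i y, npr i y ∈ BS b1 ↔ i ≤ k ∧ y = twr j p i := by
    intro i y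
    show (b1.testBit (npr i y) = true) ↔ _
    rw [hb1, testBit_ncode]
    constructor
    · rintro ⟨-, i', hi', h⟩
      obtain ⟨rfl, rfl⟩ := hinj _ _ _ _ h
      exact ⟨hi', rfl⟩
    · rintro ⟨hi, rfl⟩
      refine ⟨?_, i, hi, rfl⟩
      have := hmono i (twr j p i) k t hi (by rw [ht]; exact twr_mono j p hi)
      omega
  have hm2 : ∀ e v z, fc e v z ∈ BS b2 ↔ z = wit j e v ∧
      ∃ i, i < k ∧ e ≤ twr j p i ∧ v ≤ twr j p i := by
    intro e v z
    show (b2.testBit (fc e v z) = true) ↔ _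
    rw [hb2, testBit_ncode]
    constructor
    · rintro ⟨-, e', v', h, hi⟩
      obtain ⟨rfl, h1⟩ := hinj _ _ _ _ h
      obtain ⟨rfl, rfl⟩ := hinj _ _ _ _ h1
      exact ⟨rfl, hi⟩
    · rintro ⟨rfl, i, hi, he, hv⟩
      refine ⟨?_, e, v, rfl, i, hi, he, hv⟩
      have h1 : twr j p i ≤ t := by
        rw [ht]
        exact twr_mono j p hi.le
      have h2 : twr j p (i + 1) ≤ t := by
        rw [ht]
        exact twr_mono j p hi
      have h3 := wit_le hG j (twr j p i) e v he hv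
      have h4 : twr j p (i + 1) = 2 ^ twr j p i + GG j (twr j p i) := rfl
      have h7 : GG j (twr j p i) ≤ twr j p (i + 1) := by
        rw [h4]
        exact Nat.le_add_left _ _
      have h5 : wit j e v ≤ t + 1 := by omega
      have h6 := hmono e (npr v (wit j e v)) t (npr t (t + 1)) (he.trans h1)
        (hmono v (wit j e v) t (t + 1) (hv.trans h1) h5)
      show npr e (npr v (wit j e v)) < npr t (npr t (t + 1)) + 1
      omega
  refine ⟨npr b1 b2, ⟨b1, b2, rfl, ⟨?_, ?_, ?_⟩, ?_⟩, ?_⟩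
  · intro y hy
    obtain ⟨-, rfl⟩ := (hm1 0 y).1 hy
    exact le_rfl
  · intro i hi
    exact ⟨twr j p i, (hm1 i _).2 ⟨hi, rfl⟩⟩
  · intro i hi y y' hy hy'
    obtain ⟨-, rfl⟩ := (hm1 i y).1 hy
    obtain ⟨-, rfl⟩ := (hm1 (i + 1) y').1 hy'
    have h4 : twr j p (i + 1) = 2 ^ twr j p i + GG j (twr j p i) := rfl
    refine ⟨by omega, fun e he v hv => ⟨wit j e v, (hm2 e v _).2 ⟨rfl, i, hi, he, hv⟩, ?_⟩⟩
    intro _
    have h3 := wit_le hG j (twr j p i) e v he hv
    omega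
  · intro e v z hz
    obtain ⟨rfl, i, hi, he, hv⟩ := (hm2 e v z).1 hz
    by_cases h : TT (j + 1) e v
    · have hw : wit j e v = sInf {u | ¬ TT j e (npr u v)} + 1 := by
        unfold wit
        rw [if_pos h]
      refine ⟨fun h0 => by omega, fun u hu => ?_⟩
      have h1 : sInf {u | ¬ TT j e (npr u v)} = u := by omega
      have h2 : {u | ¬ TT j e (npr u v)}.Nonempty := h
      have h3 := Nat.sInf_mem h2
      rw [h1] at h3
      exact h3
    · have hw : wit j e v = 0 := by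
        unfold wit
        rw [if_neg h]
      exact ⟨fun _ => h, fun u hu => by omega⟩
  · have h1 : b1 < 2 ^ (npr k t + 1) := by
      rw [hb1]
      exact ncode_lt _ _
    have h2 : b2 < 2 ^ (fc t t (t + 1) + 1) := by
      rw [hb2]
      exact ncode_lt _ _
    rw [← ht]
    exact hmono _ _ _ _ h1.le h2.le

end Pool.Agent.BSN.H38
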