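import Pool.Agent.Helper26_BSN.Defs2
import Pool.Agent.Helper37_BSig.Lib

/-! # BSN, module JDL: being justified is `Δ₀` -/

set_option autoImplicit false

namespace Pool.Agent.BSN.H38

open Pool.Agent.BSig

theorem npr_term {k : ℕ} {f g : (Fin k → ℕ) → ℕ} (hf : IsTerm f) (hg : IsTerm g) :
    IsTerm (fun v => npr (f v) (g v)) :=
  ((hf.add hg).mul (hf.add hg)).add hf

theorem fc_term {k : ℕ} {f g h : (Fin k → ℕ) → ℕ} (hf : IsTerm f) (hg : IsTerm g)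
    (hh : IsTerm h) : IsTerm (fun v => fc (f v) (g v) (h v)) :=
  npr_term hf (npr_term hg hh)

theorem two_pow_term {k : ℕ} {f : (Fin k → ℕ) → ℕ} (hf : IsTerm f) :
    IsTerm (fun v => 2 ^ f v) := hf.pow2

theorem add_term {k : ℕ} {f g : (Fin k → ℕ) → ℕ} (hf : IsTerm f) (hg : IsTerm g) :
    IsTerm (fun v => f v + g v) := hf.add hg

theorem mul_term {k : ℕ} {f g : (Fin k → ℕ) → ℕ} (hf : IsTerm f) (hg : IsTerm g) :
    IsTerm (fun v => f v * g v) := hf.mul hg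

theorem le_d {k : ℕ} {f g : (Fin k → ℕ) → ℕ} (hf : IsTerm f) (hg : IsTerm g) :
    IsDelta0 (fun v => f v ≤ g v) := IsDelta0.le hf hg

theorem lt_d {k : ℕ} {f g : (Fin k → ℕ) → ℕ} (hf : IsTerm f) (hg : IsTerm g) :
    IsDelta0 (fun v => f v < g v) := IsDelta0.lt hf hg

theorem mem_d (hN : NatStmt) {k : ℕ} {f g : (Fin k → ℕ) → ℕ} (hf : IsTerm f) (hg : IsTerm g) :
    IsDelta0 (fun v => f v ∈ BS (g v)) := by
  refine (hN.2.2.2.2.2.2.2.2.2.2.subst (F := ![f, g]) ?_).congr fun v => Iff.rfl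
  intro i
  fin_cases i
  · exact hf
  · exact hg

theorem lf_d (hN : NatStmt) {k : ℕ} {f g : (Fin k → ℕ) → ℕ} (hf : IsTerm f) (hg : IsTerm g) :
    IsDelta0 (fun v => f v = lf (g v)) := by
  refine (hN.2.2.2.2.2.2.2.2.1.subst (F := ![f, g]) ?_).congr fun v => Iff.rfl
  intro i
  fin_cases i
  · exact hf
  · exact hg

theorem rt_d (hN : NatStmt) {k : ℕ} {f g : (Fin k → ℕ) → ℕ} (hf : IsTerm f) (hg : IsTerm g) :
    IsDelta0 (fun v => f v = rt (g v)) := by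
  refine (hN.2.2.2.2.2.2.2.2.2.1.subst (F := ![f, g]) ?_).congr fun v => Iff.rfl
  intro i
  fin_cases i
  · exact hf
  · exact hg

/-- the bounded version of the justification clauses -/
def JC (W e x r : ℕ) : Prop :=
  (e = npr 0 0 → r = x) ∧
  (∀ a, a ≤ W → e = npr 1 a → ∃ s, s ≤ W ∧ (fc a x s ∈ BS W ∧ r = lf s)) ∧
  (∀ a, a ≤ W → e = npr 2 a → ∃ s, s ≤ W ∧ (fc a x s ∈ BS W ∧ r = rt s)) ∧
  (∀ c, c ≤ W → e = npr 3 c → r = c) ∧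
  (∀ a, a ≤ W → ∀ b, b ≤ W → e = npr 4 (npr a b) →
    ∃ s, s ≤ W ∧ ∃ t, t ≤ W ∧ (fc a x s ∈ BS W ∧ fc b x t ∈ BS W ∧ r = s + t)) ∧
  (∀ a, a ≤ W → ∀ b, b ≤ W → e = npr 5 (npr a b) →
    ∃ s, s ≤ W ∧ ∃ t, t ≤ W ∧ (fc a x s ∈ BS W ∧ fc b x t ∈ BS W ∧ r = s * t)) ∧
  (∀ a, a ≤ W → e = npr 6 a → ∃ s, s ≤ W ∧ (fc a x s ∈ BS W ∧ r = 2 ^ s)) ∧
  (∀ a, a ≤ W → ∀ b, b ≤ W → e = npr 7 (npr a b) →
    ∃ s, s ≤ W ∧ ∃ t, t ≤ W ∧ (fc a x s ∈ BS W ∧ fc b x t ∈ BS W ∧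
    ((s = t ∧ r = 1) ∨ (s ≠ t ∧ r = 0)))) ∧
  (∀ a, a ≤ W → ∀ b, b ≤ W → e = npr 8 (npr a b) →
    ∃ s, s ≤ W ∧ ∃ t, t ≤ W ∧ (fc a x s ∈ BS W ∧ fc b x t ∈ BS W ∧
    ((s ≤ t ∧ r = 1) ∨ (t < s ∧ r = 0)))) ∧
  (∀ a, a ≤ W → e = npr 9 a →
    ∃ s, s ≤ W ∧ (fc a x s ∈ BS W ∧ ((s = 0 ∧ r = 1) ∨ (s ≠ 0 ∧ r = 0)))) ∧
  (∀ a, a ≤ W → ∀ b, b ≤ W → e = npr 10 (npr a b) →
    ∃ s, s ≤ W ∧ ∃ t, t ≤ W ∧ (fc a x s ∈ BS W ∧ fc b x t ∈ BS W ∧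
    (((s ≠ 0 ∧ t ≠ 0) ∧ r = 1) ∨ ((s = 0 ∨ t = 0) ∧ r = 0)))) ∧
  ∀ a, a ≤ W → ∀ b, b ≤ W → e = npr 11 (npr a b) → ∃ s, s ≤ W ∧ (fc a x s ∈ BS W ∧
    ((r = 1 ∧ ∀ z, z ≤ s → ∃ t, t ≤ W ∧ (t ≠ 0 ∧ fc b (npr z x) t ∈ BS W)) ∨
      (r = 0 ∧ ∃ z, z ≤ s ∧ fc b (npr z x) 0 ∈ BS W)))

theorem jc_iff (hN : NatStmt) (W : ℕ) : JustS (BS W) ↔
    ∀ e, e ≤ W → ∀ x, x ≤ W → ∀ r, r ≤ W → fc e x r ∈ BS W → JC W e x r := by
  obtain ⟨-, -, -, -, -, -, hle, hlt, -, -, -⟩ := hN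
  have hb : ∀ e x r, fc e x r ∈ BS W → e ≤ W ∧ x ≤ W ∧ r ≤ W := by
    intro e x r h
    have h1 := hlt _ _ h
    have h2 := hle e (npr x r)
    have h3 := hle x r
    unfold fc at h1
    omega
  have hc1 : ∀ e x r c a, fc e x r ∈ BS W → e = npr c a → a ≤ W := by
    intro e x r c a h he
    have h1 := (hb e x r h).1
    have h2 := hle c a
    omega
  have hc2 : ∀ e x r c a b, fc e x r ∈ BS W → e = npr c (npr a b) → a ≤ W ∧ b ≤ W := by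
    intro e x r c a b h he
    have h1 := (hb e x r h).1
    have h2 := hle c (npr a b)
    have h3 := hle a b
    omega
  constructor
  · intro H e _ x _ r _ h
    obtain ⟨h0, h1, h2, h3, h4, h5, h6, h7, h8, h9, h10, h11⟩ := H e x r h
    refine ⟨h0, ?_, ?_, fun c _ => h3 c, ?_, ?_, ?_, ?_, ?_, ?_, ?_, ?_⟩
    · intro a _ he
      obtain ⟨s, hs, hs'⟩ := h1 a he
      exact ⟨s, (hb _ _ _ hs).2.2, hs, hs'⟩
    · intro a _ he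
      obtain ⟨s, hs, hs'⟩ := h2 a he
      exact ⟨s, (hb _ _ _ hs).2.2, hs, hs'⟩
    · intro a _ b _ he
      obtain ⟨s, t, hs, ht, hs'⟩ := h4 a b he
      exact ⟨s, (hb _ _ _ hs).2.2, t, (hb _ _ _ ht).2.2, hs, ht, hs'⟩
    · intro a _ b _ he
      obtain ⟨s, t, hs, ht, hs'⟩ := h5 a b he
      exact ⟨s, (hb _ _ _ hs).2.2, t, (hb _ _ _ ht).2.2, hs, ht, hs'⟩
    · intro a _ he
      obtain ⟨s, hs, hs'⟩ := h6 a he
      exact ⟨s, (hb _ _ _ hs).2.2, hs, hs'⟩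
    · intro a _ b _ he
      obtain ⟨s, t, hs, ht, hs'⟩ := h7 a b he
      exact ⟨s, (hb _ _ _ hs).2.2, t, (hb _ _ _ ht).2.2, hs, ht, hs'⟩
    · intro a _ b _ he
      obtain ⟨s, t, hs, ht, hs'⟩ := h8 a b he
      exact ⟨s, (hb _ _ _ hs).2.2, t, (hb _ _ _ ht).2.2, hs, ht, hs'⟩
    · intro a _ he
      obtain ⟨s, hs, hs'⟩ := h9 a he
      exact ⟨s, (hb _ _ _ hs).2.2, hs, hs'⟩
    · intro a _ b _ he
      obtain ⟨s, t, hs, ht, hs'⟩ := h10 a b he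
      exact ⟨s, (hb _ _ _ hs).2.2, t, (hb _ _ _ ht).2.2, hs, ht, hs'⟩
    · intro a _ b _ he
      obtain ⟨s, hs, hs'⟩ := h11 a b he
      refine ⟨s, (hb _ _ _ hs).2.2, hs, ?_⟩
      rcases hs' with ⟨h12, h13⟩ | h12
      · left
        refine ⟨h12, fun z hz => ?_⟩
        obtain ⟨t, ht, ht'⟩ := h13 z hz
        exact ⟨t, (hb _ _ _ ht').2.2, ht, ht'⟩
      · right
        exact h12
  · intro H e x r h
    obtain ⟨he1, hx1, hr1⟩ := hb e x r h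
    obtain ⟨h0, h1, h2, h3, h4, h5, h6, h7, h8, h9, h10, h11⟩ := H e he1 x hx1 r hr1 h
    refine ⟨h0, ?_, ?_, ?_, ?_, ?_, ?_, ?_, ?_, ?_, ?_, ?_⟩
    · intro a he
      obtain ⟨s, -, hs⟩ := h1 a (hc1 _ _ _ _ _ h he) he
      exact ⟨s, hs⟩
    · intro a he
      obtain ⟨s, -, hs⟩ := h2 a (hc1 _ _ _ _ _ h he) he
      exact ⟨s, hs⟩
    · intro c he
      exact h3 c (hc1 _ _ _ _ _ h he) he
    · intro a b he
      obtain ⟨ha, hb'⟩ := hc2 _ _ _ _ _ _ h he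
      obtain ⟨s, -, t, -, hs⟩ := h4 a ha b hb' he
      exact ⟨s, t, hs⟩
    · intro a b he
      obtain ⟨ha, hb'⟩ := hc2 _ _ _ _ _ _ h he
      obtain ⟨s, -, t, -, hs⟩ := h5 a ha b hb' he
      exact ⟨s, t, hs⟩
    · intro a he
      obtain ⟨s, -, hs⟩ := h6 a (hc1 _ _ _ _ _ h he) he
      exact ⟨s, hs⟩
    · intro a b he
      obtain ⟨ha, hb'⟩ := hc2 _ _ _ _ _ _ h he
      obtain ⟨s, -, t, -, hs⟩ := h7 a ha b hb' he
      exact ⟨s, t, hs⟩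
    · intro a b he
      obtain ⟨ha, hb'⟩ := hc2 _ _ _ _ _ _ h he
      obtain ⟨s, -, t, -, hs⟩ := h8 a ha b hb' he
      exact ⟨s, t, hs⟩
    · intro a he
      obtain ⟨s, -, hs⟩ := h9 a (hc1 _ _ _ _ _ h he) he
      exact ⟨s, hs⟩
    · intro a b he
      obtain ⟨ha, hb'⟩ := hc2 _ _ _ _ _ _ h he
      obtain ⟨s, -, t, -, hs⟩ := h10 a ha b hb' he
      exact ⟨s, t, hs⟩
    · intro a b he
      obtain ⟨ha, hb'⟩ := hc2 _ _ _ _ _ _ h he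
      obtain ⟨s, -, hs, hs'⟩ := h11 a ha b hb' he
      refine ⟨s, hs, ?_⟩
      rcases hs' with ⟨h12, h13⟩ | h12
      · left
        refine ⟨h12, fun z hz => ?_⟩
        obtain ⟨t, -, ht⟩ := h13 z hz
        exact ⟨t, ht⟩
      · right
        exact h12

theorem jc_delta (hN : NatStmt) : IsDelta0 (fun v : Fin 4 → ℕ => JC (v 0) (v 1) (v 2) (v 3)) := by
  unfold JC
  repeat' first
    | exact IsTerm.var _
    | exact IsTerm.param _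
    | refine npr_term ?_ ?_
    | refine fc_term ?_ ?_ ?_
    | refine two_pow_term ?_
    | refine add_term ?_ ?_
    | refine mul_term ?_ ?_
    | refine mem_d hN ?_ ?_
    | refine lf_d hN ?_ ?_
    | refine rt_d hN ?_ ?_
    | refine IsDelta0.eq ?_ ?_
    | refine lt_d ?_ ?_
    | refine le_d ?_ ?_
    | refine IsDelta0.all ?_ ?_
    | refine IsDelta0.ex ?_ ?_
    | refine IsDelta0.not ?_
    | refine IsDelta0.imp ?_ ?_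
    | refine IsDelta0.and ?_ ?_
    | refine IsDelta0.or ?_ ?_

theorem jdl (hN : NatStmt) : JustDelta := by
  have h1 : IsDelta0 (fun v : Fin 1 → ℕ => JustS (BS (v 0))) := by
    refine IsDelta0.congr (P := fun v : Fin 1 → ℕ => ∀ e, e ≤ v 0 → ∀ x, x ≤ v 0 →
      ∀ r, r ≤ v 0 → fc e x r ∈ BS (v 0) → JC (v 0) e x r) ?_ (fun v => jc_iff hN (v 0))
    refine IsDelta0.all (IsTerm.var 0) ?_
    refine IsDelta0.all (IsTerm.var 1) ?_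
    refine IsDelta0.all (IsTerm.var 2) ?_
    refine IsDelta0.imp (mem_d hN (fc_term (IsTerm.var 2) (IsTerm.var 1) (IsTerm.var 0))
      (IsTerm.var 3)) ?_
    refine ((jc_delta hN).subst (F := ![fun w => w 3, fun w => w 2, fun w => w 1, fun w => w 0])
      ?_).congr fun v => Iff.rfl
    intro i
    fin_cases i <;> exact IsTerm.var _
  refine ⟨h1, ?_⟩
  refine IsDelta0.congr (P := fun v : Fin 2 → ℕ => ¬ ∃ u, u ≤ v 1 ∧ ∃ W, W ≤ v 1 ∧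
    ∃ t, t ≤ v 1 ∧ (v 1 = npr (npr u W) t ∧ JustS (BS W) ∧ fc (v 0) (npr u t) 0 ∈ BS W)) ?_ ?_
  · refine IsDelta0.not ?_
    refine IsDelta0.ex (IsTerm.var 1) ?_
    refine IsDelta0.ex (IsTerm.var 2) ?_
    refine IsDelta0.ex (IsTerm.var 3) ?_
    refine IsDelta0.and (IsDelta0.eq (IsTerm.var 4) (npr_term (npr_term (IsTerm.var 2)
      (IsTerm.var 1)) (IsTerm.var 0))) (IsDelta0.and ?_ ?_)
    · exact h1.subst (F := fun _ w => w 1) (fun _ => IsTerm.var 1)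
    · exact mem_d hN (fc_term (IsTerm.var 3) (npr_term (IsTerm.var 2) (IsTerm.var 0))
        (IsTerm.param 0)) (IsTerm.var 1)
  · intro v
    show ¬ NT0 (v 0) (v 1) ↔ _
    refine not_congr ?_
    obtain ⟨-, -, -, -, -, -, hle, -, -, -, -⟩ := hN
    constructor
    · rintro ⟨u, W, t, h, hJ, hm⟩
      have h2 := hle (npr u W) t
      have h3 := hle u W
      exact ⟨u, by omega, W, by omega, t, by omega, h, hJ, hm⟩
    · rintro ⟨u, -, W, -, t, -, h⟩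
      exact ⟨u, W, t, h⟩

end Pool.Agent.BSN.H38
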